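import Mathlib

/-!
# Alternating maps and an additional vector (project SP of helper742)
-/

set_option autoImplicit false

namespace Pool.Agent.Y590.SP

variable {K M : Type} [Field K] [AddCommGroup M] [Module K M]

/-- adding multiples of `D` to the entries -/
theorem alt_add {q : ℕ} (ψ : M [⋀^Fin q]→ₗ[K] K) (D : M)
    (hψ : ∀ (u : Fin q → M) (i : Fin q), u i = D → ψ u = 0) (u : Fin q → M) (g : Fin q → K) :
    ψ (fun i => u i + g i • D) = ψ u := by
  classical
  have key : ∀ s : Finset (Fin q), ψ (fun i => if i ∈ s then u i + g i • D else u i) = ψ u := by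
    intro s
    induction s using Finset.induction_on with
    | empty => simp
    | insert a s ha ih =>
      have h1 : (fun i => if i ∈ insert a s then u i + g i • D else u i) =
          Function.update (fun i => if i ∈ s then u i + g i • D else u i) a
            (u a + g a • D) := by
        funext i
        by_cases hi : i = a
        · subst hi
          rw [Function.update_self, if_pos (Finset.mem_insert_self _ _)]
        · rw [Function.update_of_ne hi]
          by_cases his : i ∈ s
          · rw [if_pos (Finset.mem_insert_of_mem his), if_pos his]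
          · rw [if_neg his, if_neg]
            rw [Finset.mem_insert, not_or]
            exact ⟨hi, his⟩
      have h2 : Function.update (fun i => if i ∈ s then u i + g i • D else u i) a (u a) =
          fun i => if i ∈ s then u i + g i • D else u i := by
        funext i
        by_cases hi : i = a
        · subst hi
          rw [Function.update_self, if_neg ha]
        · rw [Function.update_of_ne hi]
      rw [h1, AlternatingMap.map_update_add, AlternatingMap.map_update_smul, h2, ih,
        hψ (Function.update _ a D) a (Function.update_self ..), smul_zero, add_zero]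
  have h := key Finset.univ
  simpa using h

theorem exists_ne {q : ℕ} (ψ : M [⋀^Fin q]→ₗ[K] K) (hψ : ψ ≠ 0) {ι : Type}
    (b : Module.Basis ι K M) : ∃ v : Fin q → ι, ψ (fun i => b (v i)) ≠ 0 := by
  by_contra hc
  push Not at hc
  apply hψ
  exact Module.Basis.ext_alternating b fun v _ => by rw [hc v]; rfl

/-- The alternating map `θ` has a value `c ≠ 0` on tuples which consist of `D` and of basis vectors
modified by arbitrary multiples of `D`. -/
theorem alt_dich {p : ℕ} (θ : M [⋀^Fin p]→ₗ[K] K) (hθ : θ ≠ 0) {ι : Type}
    (b : Module.Basis ι K M) (D : M) :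
    ∃ c : K, c ≠ 0 ∧ ∀ Q : M → Prop, Q D → (∀ i : ι, ∃ g : K, Q (b i + g • D)) →
      ∃ E : Fin p → M, (∀ i, Q (E i)) ∧ θ E = c := by
  by_cases hD : ∀ (u : Fin p → M) (i : Fin p), u i = D → θ u = 0
  · obtain ⟨v, hv⟩ := exists_ne θ hθ b
    refine ⟨_, hv, fun Q _ hQ => ?_⟩
    choose g hg using hQ
    exact ⟨fun i => b (v i) + g (v i) • D, fun i => hg (v i),
      alt_add θ D hD (fun i => b (v i)) (fun i => g (v i))⟩
  · push Not at hD
    obtain ⟨u, i, hui, hu⟩ := hD
    obtain ⟨p', rfl⟩ : ∃ p', p = p' + 1 := ⟨p - 1, by have := i.2; omega⟩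
    have hφ : θ.curryLeft D ≠ 0 := by
      intro h0
      have h1 : ∀ w : Fin p' → M, θ (Matrix.vecCons D w) = 0 := by
        intro w
        rw [← AlternatingMap.curryLeft_apply_apply, h0]
        rfl
      have h2 : ∀ w : Fin (p' + 1) → M, w 0 = D → θ w = 0 := by
        intro w hw
        have h3 := h1 (Fin.tail w)
        rw [← hw] at h3
        have h4 : Matrix.vecCons (w 0) (Fin.tail w) = w := Fin.cons_self_tail w
        rwa [h4] at h3
      by_cases hi : i = 0
      · exact hu (h2 u (by rw [← hi]; exact hui))
      · have h3 := AlternatingMap.map_swap θ u (i := i) (j := 0) hi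
        have h4 := h2 (u ∘ Equiv.swap i 0) (by
          rw [Function.comp_apply, Equiv.swap_apply_right]; exact hui)
        rw [h4] at h3
        exact hu (neg_eq_zero.1 h3.symm)
    obtain ⟨v, hv⟩ := exists_ne (θ.curryLeft D) hφ b
    refine ⟨_, hv, fun Q hQD hQ => ?_⟩
    choose g hg using hQ
    refine ⟨Matrix.vecCons D (fun i => b (v i) + g (v i) • D), fun i => ?_, ?_⟩
    · refine Fin.cases ?_ (fun j => ?_) i
      · exact hQD
      · exact hg (v j)
    · rw [← AlternatingMap.curryLeft_apply_apply]
      refine alt_add (θ.curryLeft D) D ?_ (fun i => b (v i)) (fun i => g (v i))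
      intro w j hw
      rw [AlternatingMap.curryLeft_apply_apply]
      refine AlternatingMap.map_eq_zero_of_eq θ _ (i := 0) (j := j.succ) ?_
        (Fin.succ_ne_zero j).symm
      exact hw.symm

end Pool.Agent.Y590.SP
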