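import Pool.Agent.Y742.SP.Stm
import Pool.Agent.W602.GT.Der
import Pool.Agent.Y590.SP.Alt

/-!
# Sections of a Bogomolov sheaf have ratios which are constant along the fibres
(project SP of helper742)
-/

set_option autoImplicit false

namespace Pool.Agent.Y590.SP

open FF Pool.Agent.W602.GT Pool.Agent.Y742.SP

section

variable {Ω K : Type} [Field Ω] [CharZero Ω] [Field K] [Algebra Ω K]

/-- a derivation with values in `L` on a transcendence basis of `L` maps `L` to `L` -/
theorem pres (L : IntermediateField Ω K) {n : ℕ} (y : Fin n → L) (hy : IsTranscendenceBasis Ω y)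
    (E : Derivation Ω K K) (c : Fin n → L) (hc : ∀ j, E (y j : K) = (c j : K)) :
    ∀ a ∈ L, E a ∈ L := by
  obtain ⟨δ, hδ⟩ := exists_der y hy c
  intro a ha
  have key : E a = ((δ ⟨a, ha⟩ : L) : K) := by
    rw [← sub_eq_zero]
    rw [← Module.forall_dual_apply_eq_zero_iff L]
    intro φ
    have h0 : φ.compDer (E.compAlgebraMap L - (Algebra.linearMap L K).compDer δ) =
        (0 : Derivation Ω L L) := by
      refine der_ext y hy fun j => ?_
      change φ (E (y j : K) - ((δ (y j) : L) : K)) = 0
      rw [hc, hδ, sub_self, map_zero]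
    exact congrArg (fun d : Derivation Ω L L => d ⟨a, ha⟩) h0
  rw [key]
  exact (δ ⟨a, ha⟩).2

/-- evaluation of derivations -/
def ev (x : K) : Derivation Ω K K →ₗ[K] K where
  toFun E := E x
  map_add' _ _ := rfl
  map_smul' _ _ := rfl

theorem ev_apply (x : K) (E : Derivation Ω K K) : ev x E = E x := rfl

open IntermediateField.algebraAdjoinAdjoin in
theorem tb_of_curve (L : IntermediateField Ω K) (t : K) (ht : Transcendental L t)
    (halg : ∀ b : K, IsAlgebraic (IntermediateField.adjoin L {t}) b) :
    IsTranscendenceBasis L (fun _ : Unit => t) := by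
  rw [isTranscendenceBasis_iff_algebraicIndependent_isAlgebraic]
  refine ⟨algebraicIndependent_unique_type_iff.2 ht, ?_⟩
  rw [Set.range_const, ← IntermediateField.isAlgebraic_adjoin_iff_top]
  exact ⟨halg⟩

theorem exists_basis (L : IntermediateField Ω K) {n : ℕ} (y : Fin n → L)
    (hy : IsTranscendenceBasis Ω y) (hc : IsCurve L) (D : Derivation Ω K K) (hD : D ≠ 0)
    (hDL : ∀ a ∈ L, D a = 0) :
    ∃ b : Module.Basis (Unit ⊕ Fin n) K (Derivation Ω K K), ∀ i, ∀ a ∈ L, b i a ∈ L := by
  classical
  obtain ⟨t, _, ht, halg, -⟩ := hc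
  have hT : IsTranscendenceBasis Ω (Sum.elim (fun _ : Unit => t) (algebraMap L K ∘ y)) :=
    hy.sumElim_comp (tb_of_curve L t ht halg)
  have hE : ∀ l : Fin n, ∃ E : Derivation Ω K K, E t = 0 ∧
      ∀ j, E (y j : K) = if j = l then 1 else 0 := by
    intro l
    obtain ⟨E, hE⟩ := exists_der _ hT (Sum.elim (fun _ => 0) (fun j => if j = l then 1 else 0))
    exact ⟨E, hE (Sum.inl ()), fun j => hE (Sum.inr j)⟩
  choose E hEt hEy using hE
  have hDt : D t ≠ 0 := by
    intro h0
    apply hD
    refine der_ext _ hT fun i => ?_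
    rcases i with i | j
    · exact h0
    · exact hDL _ (y j).2
  let bf : Unit ⊕ Fin n → Derivation Ω K K := Sum.elim (fun _ => D) E
  have hli : LinearIndependent K bf := by
    rw [Fintype.linearIndependent_iff]
    intro g hg
    rw [Fintype.sum_sum_type] at hg
    simp only [Finset.univ_unique, Finset.sum_singleton] at hg
    have h1 : ∀ j, g (Sum.inr j) = 0 := by
      intro j
      have h2 := congrArg (ev (y j : K)) hg
      rw [map_add, map_smul, map_sum, map_zero] at h2
      simp only [map_smul, ev_apply, bf, Sum.elim_inl, Sum.elim_inr, hEy, smul_eq_mul, mul_ite,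
        mul_one, mul_zero] at h2
      rw [hDL _ (y j).2, mul_zero, zero_add] at h2
      rw [Finset.sum_ite_eq] at h2
      simpa using h2
    rintro (i | j)
    · have h2 := congrArg (ev t) hg
      rw [map_add, map_smul, map_sum, map_zero] at h2
      simp only [map_smul, ev_apply, bf, Sum.elim_inl, Sum.elim_inr, hEt, smul_eq_mul,
        mul_zero, Finset.sum_const_zero, add_zero] at h2
      exact (mul_eq_zero.1 h2).resolve_right hDt
    · exact h1 j
  have hsp : ⊤ ≤ Submodule.span K (Set.range bf) := by
    rintro F -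
    have hF : F = (F t / D t) • D + ∑ l, (F (y l : K)) • E l := by
      refine der_ext _ hT fun i => ?_
      rcases i with i | j
      · change F t = ev t ((F t / D t) • D + ∑ l, (F (y l : K)) • E l)
        rw [map_add, map_smul, map_sum]
        simp only [map_smul, ev_apply, hEt, smul_eq_mul, mul_zero, Finset.sum_const_zero,
          add_zero]
        rw [div_mul_cancel₀ _ hDt]
      · change F (y j : K) = ev (y j : K) ((F t / D t) • D + ∑ l, (F (y l : K)) • E l)
        rw [map_add, map_smul, map_sum]
        simp only [map_smul, ev_apply, hEy, smul_eq_mul, mul_ite, mul_one, mul_zero]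
        rw [hDL _ (y j).2, mul_zero, zero_add, Finset.sum_ite_eq]
        simp
    rw [hF]
    refine Submodule.add_mem _ (Submodule.smul_mem _ _ (Submodule.subset_span ⟨Sum.inl (), rfl⟩))
      (Submodule.sum_mem _ fun l _ => Submodule.smul_mem _ _
        (Submodule.subset_span ⟨Sum.inr l, rfl⟩))
  refine ⟨Module.Basis.mk hli hsp, fun i a ha => ?_⟩
  rw [Module.Basis.mk_apply]
  rcases i with i | l
  · change D a ∈ L
    rw [hDL a ha]
    exact L.zero_mem
  · change E l a ∈ L
    refine pres L y hy (E l) (fun j => if j = l then 1 else 0) (fun j => ?_) a ha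
    rw [hEy]
    split_ifs
    · rfl
    · rfl

end

theorem sForm (h1 : SPole) (h2 : SDiv) : Pool.Agent.Y742.SP.SForm := by
  intro Ω K _ _ _ _ L n y hy hc D hD hDL hG p θ hθ N f hreg hf0 j
  obtain ⟨b, hb⟩ := exists_basis L y hy hc D hD hDL
  obtain ⟨c, hc0, hcE⟩ := alt_dich θ hθ b D
  have hF : ∀ j, IsAlgebraic L (f j * c ^ N) := by
    intro j
    by_contra hna
    obtain ⟨P, hP, hord⟩ := h1 Ω K L hc (f j * c ^ N) hna
    have hgood := hG P hP
    obtain ⟨E, hE, hθE⟩ := hcE (DerReg P) hgood.1 (fun i => hgood.2 (b i) (hb i))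
    have h3 := hreg P (h2 Ω K L n y hy P hP) E hE j
    rw [hθE] at h3
    rcases h3 with h4 | h4
    · rw [h4, P.ord_zero] at hord
      exact lt_irrefl _ hord
    · omega
  have hc' : c ^ N ≠ 0 := pow_ne_zero _ hc0
  have h3 : f j / f 0 = (f j * c ^ N) * (f 0 * c ^ N)⁻¹ := by
    field_simp
  rw [h3]
  exact (hF j).mul (hF 0).inv

end Pool.Agent.Y590.SP
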